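import Pool.Agent.H380.AG.Stm

/-!
# The product formula `S_AVG` (subtask X = Avg of MP_937c79_an)
-/

set_option autoImplicit false

open MeasureTheory Metric Set Filter Topology
open scoped ENNReal RealInnerProductSpace

namespace Pool.Agent.H322.AG

open Pool.Agent.W778.AG Pool.Agent.H380.AG

theorem cd_eq {n : ℕ} (y x c : En n) :
    cd y (fun i => (x i : ℂ) + Complex.I * (c i : ℂ)) =
      ((⟪y, x⟫ : ℝ) + Complex.I * (⟪y, c⟫ : ℝ) : ℂ) := by
  simp only [cd, PiLp.inner_apply, RCLike.inner_apply, conj_trivial]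
  push_cast
  rw [Finset.mul_sum, ← Finset.sum_add_distrib]
  refine Finset.sum_congr rfl fun i _ => ?_
  ring

theorem qf_eq {n : ℕ} (x c : En n) :
    qf (fun i => (x i : ℂ) + Complex.I * (c i : ℂ)) =
      ((‖x‖ ^ 2 - ‖c‖ ^ 2 : ℝ) : ℂ) + 2 * Complex.I * (⟪x, c⟫ : ℝ) := by
  simp only [qf, PiLp.inner_apply, RCLike.inner_apply, conj_trivial, EuclideanSpace.norm_sq_eq,
    Real.norm_eq_abs, sq_abs]
  push_cast
  rw [Finset.mul_sum, ← Finset.sum_sub_distrib, ← Finset.sum_add_distrib]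
  refine Finset.sum_congr rfl fun i _ => ?_
  have hI := Complex.I_sq
  linear_combination ((c i : ℂ) ^ 2) * hI

theorem LC_eq (h4 : S_LAP) (n k : ℕ) (hn : 3 ≤ n) (α : ℝ) :
    LC n (fun φ => (((Real.cos α : ℝ) : ℂ) + Complex.I * ((Real.sin α : ℝ) : ℂ) *
      (Real.cos φ : ℂ)) ^ k) = ((Pg n k (Real.cos α) : ℝ) : ℂ) := by
  have hpos : (0 : ℝ) < ∫ φ in (0 : ℝ)..Real.pi, Real.sin φ ^ (n - 3) := integral_sin_pow_pos _
  have hne : ((∫ φ in (0 : ℝ)..Real.pi, Real.sin φ ^ (n - 3) : ℝ) : ℂ) ≠ 0 := by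
    exact_mod_cast hpos.ne'
  have h := h4 n k hn α
  unfold LC
  rw [div_eq_iff hne, ← h]
  congr 1
  rw [← intervalIntegral.integral_ofReal]

/-- the point of the circle -/
noncomputable def wb {n : ℕ} (v : En n) (α : ℝ) (b : En n) : En n :=
  Real.cos α • v + Real.sin α • b

theorem wb_cont {n : ℕ} (v : En n) (α : ℝ) : Continuous (wb v α) := by
  unfold wb; fun_prop

theorem wb_norm {n : ℕ} (v : En n) (α : ℝ) (b : En n) (hv : ‖v‖ = 1) (hb : ‖b‖ = 1)
    (h : ⟪b, v⟫ = 0) : ‖wb v α b‖ = 1 := by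
  have h2 : ⟪v, b⟫ = 0 := by rw [real_inner_comm]; exact h
  have : ‖wb v α b‖ ^ 2 = 1 := by
    unfold wb
    rw [norm_add_sq_real, norm_smul, norm_smul, inner_smul_left, inner_smul_right, h2, hv, hb]
    simp only [Real.norm_eq_abs, mul_one, sq_abs, mul_zero, add_zero]
    exact Real.cos_sq_add_sin_sq α
  have h0 : 0 ≤ ‖wb v α b‖ := norm_nonneg _
  nlinarith

theorem sph_ae {n : ℕ} {σ : Measure (En n)} (h : Sph σ) : ∀ᵐ b ∂σ, ‖b‖ = 1 := by
  have h2 := h.2
  have : ∀ᵐ b ∂σ, b ∈ sphere (0 : En n) 1 := by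
    rw [ae_iff]; exact h2
  filter_upwards [this] with b hb
  simpa using hb

theorem perp_ae {n : ℕ} {v : En n} {σ : Measure (En n)} (h : Perp n v σ) :
    ∀ᵐ b ∂σ, ‖b‖ = 1 ∧ ⟪b, v⟫ = 0 := by
  have h2 : ∀ᵐ b ∂σ, ⟪b, v⟫ = 0 := by
    rw [ae_iff]; exact h.2.1
  filter_upwards [sph_ae h.1, h2] with b hb hb'
  exact ⟨hb, hb'⟩

theorem inner_wb {n : ℕ} (v : En n) (α : ℝ) (b y : En n) :
    ⟪wb v α b, y⟫ = Real.cos α * ⟪v, y⟫ + Real.sin α * ⟪b, y⟫ := by
  unfold wb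
  rw [inner_add_left, inner_smul_left, inner_smul_left]
  simp

theorem Pg_cont (n : ℕ) : ∀ k : ℕ, Continuous (Pg n k)
  | 0 => by simp only [Pg]; exact continuous_const
  | 1 => by simp only [Pg]; exact continuous_id
  | k + 2 => by
    have h1 := Pg_cont n (k + 1)
    have h2 := Pg_cont n k
    show Continuous (fun t => ((2 * (k : ℝ) + n) * t * Pg n (k + 1) t -
      ((k : ℝ) + 1) * Pg n k t) / ((k : ℝ) + n - 1))
    fun_prop

theorem main_identity (h3 : S_LV) (h2 : S_ISO) (h4 : S_LAP) (n : ℕ) (hn : 3 ≤ n) (v x : En n)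
    (α : ℝ) (hv : ‖v‖ = 1) (hx : ‖x‖ = 1) (σ τ : Measure (En n)) (hσ : Perp n v σ)
    (hτ : Perp n x τ) (k : ℕ) :
    ∫ b, Pg n k ⟪wb v α b, x⟫ ∂σ = Pg n k (Real.cos α) * Pg n k ⟪v, x⟫ := by
  have : IsProbabilityMeasure σ := hσ.1.1
  have : IsProbabilityMeasure τ := hτ.1.1
  have hbσ := perp_ae hσ
  have hcτ := perp_ae hτ
  -- the integrand
  set G : En n → En n → ℂ := fun b c =>
    ((⟪wb v α b, x⟫ : ℝ) + Complex.I * (⟪wb v α b, c⟫ : ℝ) : ℂ) ^ k with hG
  have hGc : Continuous (fun p : En n × En n => G p.1 p.2) := by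
    have h0 : Continuous (fun p : En n × En n => wb v α p.1) := (wb_cont v α).comp continuous_fst
    have h1 : Continuous (fun p : En n × En n => (⟪wb v α p.1, x⟫ : ℝ)) := by fun_prop
    have h2 : Continuous (fun p : En n × En n => (⟪wb v α p.1, p.2⟫ : ℝ)) := by fun_prop
    simp only [hG]
    fun_prop
  have hGb : ∀ᵐ p ∂(σ.prod τ), ‖G p.1 p.2‖ ≤ 2 ^ k := by
    have hs : MeasurableSet {p : En n × En n | ‖G p.1 p.2‖ ≤ 2 ^ k} :=
      (isClosed_le hGc.norm continuous_const).measurableSet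
    refine Measure.ae_prod_iff_ae_ae hs |>.2 ?_
    filter_upwards [hbσ] with b hb
    filter_upwards [hcτ] with c hc
    have hw : ‖wb v α b‖ = 1 := wb_norm v α b hv hb.1 hb.2
    simp only [hG, norm_pow]
    refine pow_le_pow_left₀ (norm_nonneg _) ?_ k
    refine (norm_add_le _ _).trans ?_
    rw [norm_mul, Complex.norm_I, one_mul, Complex.norm_real, Complex.norm_real]
    have e1 : ‖(⟪wb v α b, x⟫ : ℝ)‖ ≤ 1 := by
      refine (norm_inner_le_norm _ _).trans ?_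
      rw [hw, hx]; norm_num
    have e2 : ‖(⟪wb v α b, c⟫ : ℝ)‖ ≤ 1 := by
      refine (norm_inner_le_norm _ _).trans ?_
      rw [hw, hc.1]; norm_num
    linarith
  have hGi : Integrable (fun p : En n × En n => G p.1 p.2) (σ.prod τ) :=
    Integrable.of_bound hGc.aestronglyMeasurable (2 ^ k) hGb
  -- first step: Laplace with pole x
  have s1 : ((∫ b, Pg n k ⟪wb v α b, x⟫ ∂σ : ℝ) : ℂ) = ∫ b, ∫ c, G b c ∂τ ∂σ := by
    rw [← integral_complex_ofReal]
    refine integral_congr_ae ?_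
    filter_upwards [hbσ] with b hb
    have hw : ‖wb v α b‖ = 1 := wb_norm v α b hv hb.1 hb.2
    exact h3 n hn x τ hx hτ k (wb v α b) hw
  -- second step
  have s2 : ∀ᵐ c ∂τ, ∫ b, G b c ∂σ =
      ((⟪v, x⟫ : ℝ) + Complex.I * (⟪v, c⟫ : ℝ) : ℂ) ^ k * ((Pg n k (Real.cos α) : ℝ) : ℂ) := by
    filter_upwards [hcτ] with c hc
    have hq : qf (fun i => (x i : ℂ) + Complex.I * (c i : ℂ)) = 0 := by
      rw [qf_eq, hx, hc.1, real_inner_comm, hc.2]
      simp
    have h := h2 n hn v σ hv hσ k ((Real.cos α : ℝ) : ℂ) ((Real.sin α : ℝ) : ℂ)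
      (fun i => (x i : ℂ) + Complex.I * (c i : ℂ)) hq
    rw [LC_eq h4 n k hn α] at h
    rw [cd_eq] at h
    rw [← h]
    refine integral_congr_ae (Eventually.of_forall fun b => ?_)
    simp only [hG]
    rw [cd_eq, inner_wb, inner_wb]
    push_cast
    congr 1
    ring
  have s3 : ((∫ b, Pg n k ⟪wb v α b, x⟫ ∂σ : ℝ) : ℂ) =
      ((Pg n k ⟪v, x⟫ : ℝ) : ℂ) * ((Pg n k (Real.cos α) : ℝ) : ℂ) := by
    rw [s1, integral_integral_swap hGi, integral_congr_ae s2, integral_mul_const]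
    congr 1
    exact (h3 n hn x τ hx hτ k v hv).symm
  have s4 : ((∫ b, Pg n k ⟪wb v α b, x⟫ ∂σ : ℝ) : ℂ) =
      ((Pg n k (Real.cos α) * Pg n k ⟪v, x⟫ : ℝ) : ℂ) := by
    rw [s3]; push_cast; ring
  exact_mod_cast s4

/-- **Task AVG.** -/
theorem t_AVG (h1 : S_PERP) (h2 : S_ISO) (h3 : S_LV) (h4 : S_LAP) : S_AVG := by
  intro n hn v α hv
  obtain ⟨σ, hσ⟩ := h1 n hn v hv
  have : IsProbabilityMeasure σ := hσ.1.1
  have hm : Measurable (wb v α) := (wb_cont v α).measurable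
  have hbσ := perp_ae hσ
  refine ⟨σ.map (wb v α), ⟨Measure.isProbabilityMeasure_map hm.aemeasurable, ?_⟩, ?_, ?_⟩
  · rw [Measure.map_apply hm isClosed_sphere.measurableSet.compl]
    have : ∀ᵐ b ∂σ, ¬ b ∈ wb v α ⁻¹' (sphere (0 : En n) 1)ᶜ := by
      filter_upwards [hbσ] with b hb
      simp [wb_norm v α b hv hb.1 hb.2]
    rw [ae_iff] at this
    simp only [not_not] at this
    exact this
  · have hms : MeasurableSet {w : En n | ⟪v, w⟫ ≠ Real.cos α} := by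
      have : IsClosed {w : En n | ⟪v, w⟫ = Real.cos α} :=
        isClosed_eq (by fun_prop) continuous_const
      exact this.measurableSet.compl
    rw [Measure.map_apply hm hms]
    have : ∀ᵐ b ∂σ, ¬ b ∈ wb v α ⁻¹' {w : En n | ⟪v, w⟫ ≠ Real.cos α} := by
      filter_upwards [hbσ] with b hb
      simp only [mem_preimage, mem_ofPred_eq, not_not]
      rw [real_inner_comm, inner_wb, real_inner_self_eq_norm_sq, hv, hb.2]
      simp
    rw [ae_iff] at this
    simpa using this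
  · intro k x hx
    obtain ⟨τ, hτ⟩ := h1 n hn x hx
    rw [integral_map hm.aemeasurable]
    · exact main_identity h3 h2 h4 n hn v x α hv hx σ τ hσ hτ k
    · have : Continuous (fun w : En n => Pg n k ⟪w, x⟫) :=
        (Pg_cont n k).comp (by fun_prop)
      exact this.aestronglyMeasurable

end Pool.Agent.H322.AG
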